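import Pool.Agent.Helper55.FR.GoalsA

/-!
# Packet FR-TUT: Tutte's theorem in the form used by the project
-/

namespace Pool.Agent.Helper89.FR

open Finset Pool.Agent.Helper55.FR

theorem tut : TutStmt := by
  intro V _ _ r hsym hirr hno
  classical
  let G : SimpleGraph V :=
    { Adj := r
      symm := ⟨fun x y h => hsym x y h⟩
      loopless := ⟨fun x h => hirr x h⟩ }
  have hG : ∀ x y, G.Adj x y ↔ r x y := fun x y => Iff.rfl
  -- no perfect matching
  have hM : ¬ ∃ M : SimpleGraph.Subgraph G, M.IsPerfectMatching := by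
    rintro ⟨M, hM⟩
    apply hno
    rw [SimpleGraph.Subgraph.isPerfectMatching_iff] at hM
    choose q hq hq' using hM
    refine ⟨q, ?_, ?_, ?_⟩
    · intro x
      exact (hq' (q x) x (hq x).symm).symm
    · intro x hx
      have := (hq x).ne
      exact this hx.symm
    · intro x
      exact (hq x).adj_sub
  rw [SimpleGraph.tutte] at hM
  push Not at hM
  obtain ⟨u, hu⟩ := hM
  unfold SimpleGraph.IsTutteViolator at hu
  set H' := ((⊤ : G.Subgraph).deleteVerts u) with hH'
  have hverts : ∀ x, x ∈ H'.verts ↔ x ∉ u := by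
    intro x; simp [hH']
  have hadj : ∀ x y : H'.verts, H'.coe.Adj x y ↔ r x.1 y.1 := by
    intro x y
    have hx := (hverts x.1).1 x.2
    have hy := (hverts y.1).1 y.2
    simp [hH', SimpleGraph.Subgraph.deleteVerts_adj, hx, hy, hG]
  let S : H'.coe.ConnectedComponent → Finset V := fun c =>
    univ.filter fun x => ∃ h : x ∈ H'.verts, H'.coe.connectedComponentMk ⟨x, h⟩ = c
  have hS : ∀ c x, x ∈ S c ↔ ∃ h : x ∈ H'.verts, H'.coe.connectedComponentMk ⟨x, h⟩ = c := by
    intro c x; simp [S]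
  have hcard : ∀ c, (S c).card = c.supp.ncard := by
    intro c
    have h1 : ((S c : Finset V) : Set V) = Subtype.val '' c.supp := by
      ext x
      simp only [Finset.mem_coe, hS, Set.mem_image, SimpleGraph.ConnectedComponent.mem_supp_iff]
      constructor
      · rintro ⟨h, hc⟩; exact ⟨⟨x, h⟩, hc, rfl⟩
      · rintro ⟨y, hc, rfl⟩; exact ⟨y.2, hc⟩
    rw [← Set.ncard_coe_finset, h1, Set.ncard_image_of_injective _ Subtype.val_injective]
  have hne : ∀ c, (S c).Nonempty := by
    intro c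
    obtain ⟨v, hv⟩ := c.exists_rep
    exact ⟨v.1, (hS c v.1).2 ⟨v.2, hv⟩⟩
  have hinj : Function.Injective S := by
    intro c d hcd
    obtain ⟨x, hx⟩ := hne c
    have hx' := hx
    rw [hcd] at hx'
    obtain ⟨h1, h2⟩ := (hS _ _).1 hx
    obtain ⟨h3, h4⟩ := (hS _ _).1 hx'
    rw [← h2, ← h4]
  -- closure along edges
  have hcl : ∀ c, ∀ x ∈ S c, ∀ y, r x y → y ∉ u → y ∈ S c := by
    intro c x hx y hxy hy
    obtain ⟨h1, h2⟩ := (hS _ _).1 hx
    refine (hS _ _).2 ⟨(hverts y).2 hy, ?_⟩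
    rw [← h2, SimpleGraph.ConnectedComponent.eq]
    exact (SimpleGraph.Adj.reachable ((hadj ⟨x, h1⟩ ⟨y, (hverts y).2 hy⟩).2 hxy)).symm
  haveI : Fintype H'.coe.ConnectedComponent := Fintype.ofFinite _
  refine ⟨u.toFinset, univ.image S, ⟨?_, ?_, ?_, ?_, ?_, ?_⟩, ?_⟩
  · intro K hK
    obtain ⟨c, -, rfl⟩ := Finset.mem_image.1 hK
    exact hne c
  · intro K hK
    obtain ⟨c, -, rfl⟩ := Finset.mem_image.1 hK
    rw [Finset.disjoint_left]
    intro x hx hx'
    obtain ⟨h1, -⟩ := (hS _ _).1 hx'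
    exact (hverts x).1 h1 (by simpa using hx)
  · intro K hK K' hK' hKK
    obtain ⟨c, -, rfl⟩ := Finset.mem_image.1 hK
    obtain ⟨d, -, rfl⟩ := Finset.mem_image.1 hK'
    rw [Finset.disjoint_left]
    intro x hx hx'
    obtain ⟨h1, h2⟩ := (hS _ _).1 hx
    obtain ⟨h3, h4⟩ := (hS _ _).1 hx'
    exact hKK (by rw [← h2, ← h4])
  · intro x hx
    have hx' : x ∈ H'.verts := (hverts x).2 (by simpa using hx)
    exact ⟨S (H'.coe.connectedComponentMk ⟨x, hx'⟩), Finset.mem_image_of_mem _ (mem_univ _),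
      (hS _ _).2 ⟨hx', rfl⟩⟩
  · intro K hK x hx y hxy
    obtain ⟨c, -, rfl⟩ := Finset.mem_image.1 hK
    by_cases hy : y ∈ u
    · right; simpa using hy
    · left; exact hcl c x hx y hxy hy
  · intro K hK
    obtain ⟨c, -, rfl⟩ := Finset.mem_image.1 hK
    intro R hR hRn hRc
    obtain ⟨x, hx⟩ := hRn
    apply Finset.Subset.antisymm hR
    intro y hy
    obtain ⟨h1, h2⟩ := (hS _ _).1 (hR hx)
    obtain ⟨h3, h4⟩ := (hS _ _).1 hy
    have hreach : H'.coe.Reachable ⟨x, h1⟩ ⟨y, h3⟩ := by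
      rw [← SimpleGraph.ConnectedComponent.eq, h2, h4]
    obtain ⟨w⟩ := hreach
    have key : ∀ (a b : H'.verts) (w : H'.coe.Walk a b), a.1 ∈ R → b.1 ∈ R := by
      intro a b w
      induction w with
      | nil => exact fun h => h
      | @cons a b' c' hab _ ih =>
        intro ha
        apply ih
        have hr := (hadj _ _).1 hab
        exact hRc _ ha _ (hcl c _ (hR ha) _ hr ((hverts _).1 b'.2)) hr
    exact key _ _ w hx
  · have h1 : ((univ.image S).filter fun K => Odd K.card) =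
        (univ.filter fun c => Odd (S c).card).image S := by
      ext K
      simp only [mem_filter, mem_image, mem_univ, true_and]
      constructor
      · rintro ⟨⟨c, rfl⟩, h⟩; exact ⟨c, h, rfl⟩
      · rintro ⟨c, h, rfl⟩; exact ⟨⟨c, rfl⟩, h⟩
    rw [h1, Finset.card_image_of_injective _ hinj]
    have h2 : H'.coe.oddComponents.ncard = (univ.filter fun c => Odd (S c).card).card := by
      rw [← Set.ncard_coe_finset]
      congr 1
      ext c
      simp [SimpleGraph.oddComponents, hcard]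
    rw [← h2]
    rw [Set.ncard_eq_toFinset_card'] at hu
    exact hu

end Pool.Agent.Helper89.FR
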