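import Pool.Agent.Helper92.FR.GoalsB

namespace Pool.Agent.Helper89.FR

open MeasureTheory Pool.Agent.Helper92.FR

theorem expo (N d L : ℕ) (hd : 1 ≤ d) (hL : N + d ≤ L) :
    (4 * L) + ((L + 1) + (N ^ 2 + 2 * (3 * L) * N + 3 * L)) ≤ (L + 10) ^ 3 := by
  have hN : N ≤ L := by omega
  have h1 : N ^ 2 ≤ L ^ 2 := Nat.pow_le_pow_left hN 2
  have h2 : 2 * (3 * L) * N ≤ 6 * L ^ 2 := by nlinarith
  nlinarith [Nat.zero_le (L ^ 3), Nat.zero_le (L ^ 2), Nat.zero_le L]

theorem mrg0 (hInt : IntStmt) (N d L Dn : ℕ) (C : Fin N → Fin d → ℝ) (S e : Fin d → ℝ)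
    (hN : 1 ≤ N) (hd : 1 ≤ d) (hL : N + d ≤ L)
    (hS : ∀ i, S i = (∑ j, |C j i|) + |e i| + 1) (hrow : ∀ i, ∃ j, C j i ≠ 0)
    (hC : ∀ i j, |C j i| ≤ 2 ^ (3 * L)) (he : ∀ i, |e i| ≤ 2 ^ (3 * L)) (hD1 : 1 ≤ Dn)
    (hD : Dn ≤ 2 ^ (3 * L)) (hCz : ∀ i j, ∃ z : ℤ, (Dn : ℝ) * C j i = z)
    (hez : ∀ i, ∃ z : ℤ, (Dn : ℝ) * e i = z) :
    (0 < ff C S e → ∃ z : Fin N ⊕ Fin d → ℝ,
      (∀ j, 1 / 2 ^ ((L + 10) ^ 3) ≤ z j ∧ z j ≤ 1 - 1 / 2 ^ ((L + 10) ^ 3)) ∧
      ∀ i, ∑ j, col C S j i * z j = e i) ∧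
    ∀ i, (∑ j, |col C S j i|) + |e i| ≤ 2 ^ ((L + 10) ^ 3) := by
  have hL2 : (L : ℝ) + 1 ≤ 2 ^ L := by
    have : L + 1 ≤ 2 ^ L := Nat.lt_two_pow_self
    exact_mod_cast this
  have hNL : (N : ℝ) + d ≤ L := by exact_mod_cast hL
  have hd1 : (1 : ℝ) ≤ d := by exact_mod_cast hd
  have hN1 : (1 : ℝ) ≤ N := by exact_mod_cast hN
  have hS1 : ∀ i, 1 ≤ S i := by
    intro i
    rw [hS i]
    have := Finset.sum_nonneg (s := Finset.univ) fun j (_ : j ∈ Finset.univ) => abs_nonneg (C j i)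
    linarith [abs_nonneg (e i)]
  have hSu : ∀ i, S i ≤ 2 ^ (4 * L) := by
    intro i
    have h1 : ∑ j, |C j i| ≤ N * 2 ^ (3 * L) := by
      have := Finset.sum_le_card_nsmul Finset.univ (fun j => |C j i|) (2 ^ (3 * L))
        (fun j _ => hC i j)
      rwa [Finset.card_univ, Fintype.card_fin, nsmul_eq_mul] at this
    have h2 : (1 : ℝ) ≤ 2 ^ (3 * L) := one_le_pow₀ (by norm_num)
    have h3 : S i ≤ ((N : ℝ) + 2) * 2 ^ (3 * L) := by
      rw [hS i]
      have := he i
      nlinarith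
    have h4 : ((N : ℝ) + 2) * 2 ^ (3 * L) ≤ 2 ^ L * 2 ^ (3 * L) :=
      mul_le_mul_of_nonneg_right (by linarith) (by positivity)
    have h5 : (2 : ℝ) ^ L * 2 ^ (3 * L) = 2 ^ (4 * L) := by
      rw [← pow_add]; congr 1; ring
    linarith
  have hexp := expo N d L hd hL
  generalize (L + 10) ^ 3 = E at hexp ⊢
  set σ := sig N d (3 * L) with hσ
  have hden : (0 : ℝ) < ((2 * N + d : ℕ) : ℝ) * 2 ^ (N ^ 2 + 2 * (3 * L) * N + 3 * L) := by
    have : (0 : ℝ) < ((2 * N + d : ℕ) : ℝ) := by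
      push_cast; linarith
    positivity
  have hσpos : 0 < σ := by
    rw [hσ]; unfold sig
    exact one_div_pos.mpr hden
  have hσS : ∀ i, 1 / 2 ^ E ≤ σ / S i := by
    intro i
    have hSi : 0 < S i := by linarith [hS1 i]
    rw [hσ]; unfold sig
    rw [div_div]
    apply one_div_le_one_div_of_le (mul_pos hden hSi)
    have h1 : ((2 * N + d : ℕ) : ℝ) ≤ 2 ^ (L + 1) := by
      rw [pow_succ]; push_cast; linarith
    calc ((2 * N + d : ℕ) : ℝ) * 2 ^ (N ^ 2 + 2 * (3 * L) * N + 3 * L) * S i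
        ≤ 2 ^ (L + 1) * 2 ^ (N ^ 2 + 2 * (3 * L) * N + 3 * L) * 2 ^ (4 * L) := by
          apply mul_le_mul _ (hSu i) hSi.le (by positivity)
          exact mul_le_mul_of_nonneg_right h1 (by positivity)
      _ = 2 ^ ((4 * L) + ((L + 1) + (N ^ 2 + 2 * (3 * L) * N + 3 * L))) := by
          rw [pow_add, pow_add]; ring
      _ ≤ 2 ^ E := pow_le_pow_right₀ (by norm_num) hexp
  have hσ1 : ∀ i, σ / S i ≤ σ := fun i => div_le_self hσpos.le (hS1 i)
  have h1S : ∀ i, 1 / 2 ^ E ≤ 1 / S i := by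
    intro i
    apply one_div_le_one_div_of_le (by linarith [hS1 i])
    exact (hSu i).trans (pow_le_pow_right₀ (by norm_num) (by omega))
  have i0 : Fin d := ⟨0, by omega⟩
  constructor
  · intro hff
    have hprod : 0 < ∏ i, S i := Finset.prod_pos fun i _ => by linarith [hS1 i]
    have hvol : 0 < volume {x : Fin N → ℝ | (∀ j, 0 ≤ x j ∧ x j ≤ 1) ∧
        ∀ i, e i ≤ ∑ j, C j i * x j} := by
      unfold ff at hff
      have h1 := (div_pos_iff_of_pos_right hprod).mp hff
      have h2 := (ENNReal.toReal_pos_iff.mp h1).1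
      refine lt_of_lt_of_le h2 (measure_mono ?_)
      rintro x ⟨hx, hx'⟩
      exact ⟨hx, fun i => by linarith [(hx' i).1]⟩
    obtain ⟨x, hx, hxe⟩ := hInt N d (3 * L) Dn C e hN hD1 hD hCz hez hC he hrow hvol
    refine ⟨Sum.elim x fun i => ((∑ j, C j i * x j) - e i) / S i, ?_, ?_⟩
    · rintro (j | i)
      · simp only [Sum.elim_inl]
        have h1 := hσS i0
        have h2 := hσ1 i0
        have h3 := hx j
        constructor
        · linarith [h3.1]
        · linarith [h3.2]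
      · simp only [Sum.elim_inr]
        have hSi : 0 < S i := by linarith [hS1 i]
        constructor
        · refine (hσS i).trans ?_
          exact div_le_div_of_nonneg_right (hxe i) hSi.le
        · have h1 : (∑ j, C j i * x j) - e i ≤ S i - 1 := by
            rw [hS i]
            have h2 : ∑ j, C j i * x j ≤ ∑ j, |C j i| := by
              apply Finset.sum_le_sum
              intro j _
              have hx0 : 0 ≤ x j := by linarith [(hx j).1]
              have hx1 : x j ≤ 1 := by linarith [(hx j).2]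
              calc C j i * x j ≤ |C j i| * x j := mul_le_mul_of_nonneg_right (le_abs_self _) hx0
                _ ≤ |C j i| * 1 := mul_le_mul_of_nonneg_left hx1 (abs_nonneg _)
                _ = |C j i| := mul_one _
            linarith [neg_abs_le (e i)]
          have h3 : ((∑ j, C j i * x j) - e i) / S i ≤ (S i - 1) / S i :=
            div_le_div_of_nonneg_right h1 hSi.le
          have h4 : (S i - 1) / S i = 1 - 1 / S i := by
            field_simp
          linarith [h1S i]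
    · intro i
      rw [Fintype.sum_sum_type]
      simp only [col, Sum.elim_inl, Sum.elim_inr, ite_mul, zero_mul, Finset.sum_ite_eq,
        Finset.mem_univ, if_true]
      have hSi : S i ≠ 0 := by linarith [hS1 i]
      field_simp
      ring
  · intro i
    have h1 : ∑ j, |col C S j i| = (∑ j, |C j i|) + S i := by
      rw [Fintype.sum_sum_type]
      congr 1
      rw [Finset.sum_eq_single i]
      · simp only [col, if_true, abs_neg]
        exact abs_of_pos (by linarith [hS1 i])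
      · intro b _ hb
        simp only [col]
        rw [if_neg (Ne.symm hb), abs_zero]
      · intro h
        exact absurd (Finset.mem_univ i) h
    rw [h1]
    have h2 : (∑ j, |C j i|) + |e i| = S i - 1 := by rw [hS i]; ring
    have h3 := hSu i
    have h4 : (2 : ℝ) ^ (4 * L) + 2 ^ (4 * L) = 2 ^ (4 * L + 1) := by rw [pow_succ]; ring
    have h5 : (2 : ℝ) ^ (4 * L + 1) ≤ 2 ^ E := pow_le_pow_right₀ (by norm_num) (by omega)
    linarith

theorem mrg (h : IntStmt) : MrgStmt := by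
  intro D L Dn _ hd hN hL hS hrow hC he hD1 hD hCz hez
  exact mrg0 h D.1.length (nrow D) L Dn (CR D) (SR D) (eR D) hN hd hL hS hrow hC he hD1 hD hCz hez

end Pool.Agent.Helper89.FR
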