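import Pool.Agent.Helper92.FR.GoalsA

/-!
# FR, packet TRC
-/

namespace Pool.Agent.Helper89.FR

open Pool.Agent.Helper92.FR MeasureTheory

theorem MM_pos (a : ℝ) : 0 < MM a := by
  unfold MM
  apply intervalIntegral.intervalIntegral_pos_of_pos
  · exact (by fun_prop : Continuous fun x : ℝ => Real.exp (a * x)).intervalIntegrable _ _
  · intro x
    exact Real.exp_pos _
  · exact zero_lt_one

theorem trc : TrcStmt := by
  intro a b
  have hMa := MM_pos a
  have hMb := MM_pos b
  set m := mm a with hm
  set δ := b - a with hδ
  have c1 : IntervalIntegrable (fun x : ℝ => Real.exp (a * x)) volume 0 1 :=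
    (by fun_prop : Continuous fun x : ℝ => Real.exp (a * x)).intervalIntegrable _ _
  have c2 : IntervalIntegrable (fun x : ℝ => x * Real.exp (a * x)) volume 0 1 :=
    (by fun_prop : Continuous fun x : ℝ => x * Real.exp (a * x)).intervalIntegrable _ _
  have hmul : m * MM a = ∫ x in (0 : ℝ)..1, x * Real.exp (a * x) := by
    rw [hm]
    unfold mm
    rw [div_mul_cancel₀ _ hMa.ne']
  have key : (∫ x in (0 : ℝ)..1, Real.exp (δ * m) * ((1 - δ * m) * Real.exp (a * x) +
      δ * (x * Real.exp (a * x)))) ≤ ∫ x in (0 : ℝ)..1, Real.exp (b * x) := by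
    apply intervalIntegral.integral_mono zero_le_one
    · exact (by fun_prop : Continuous fun x : ℝ => Real.exp (δ * m) *
        ((1 - δ * m) * Real.exp (a * x) + δ * (x * Real.exp (a * x)))).intervalIntegrable _ _
    · exact (by fun_prop : Continuous fun x : ℝ => Real.exp (b * x)).intervalIntegrable _ _
    · intro x
      have e1 : Real.exp (b * x) =
          Real.exp (a * x) * Real.exp (δ * m) * Real.exp (δ * (x - m)) := by
        rw [← Real.exp_add, ← Real.exp_add]
        congr 1
        rw [hδ]
        ring
      have e2 := Real.add_one_le_exp (δ * (x - m))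
      change Real.exp (δ * m) * ((1 - δ * m) * Real.exp (a * x) + δ * (x * Real.exp (a * x))) ≤
        Real.exp (b * x)
      rw [e1]
      have e3 : Real.exp (δ * m) * ((1 - δ * m) * Real.exp (a * x) +
          δ * (x * Real.exp (a * x))) =
          Real.exp (a * x) * Real.exp (δ * m) * (δ * (x - m) + 1) := by ring
      rw [e3]
      exact mul_le_mul_of_nonneg_left e2 (by positivity)
  have e4 : (∫ x in (0 : ℝ)..1, Real.exp (δ * m) * ((1 - δ * m) * Real.exp (a * x) +
      δ * (x * Real.exp (a * x)))) = Real.exp (δ * m) * MM a := by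
    rw [intervalIntegral.integral_const_mul, intervalIntegral.integral_add (c1.const_mul _)
      (c2.const_mul _), intervalIntegral.integral_const_mul, intervalIntegral.integral_const_mul,
      ← hmul]
    change Real.exp (δ * m) * ((1 - δ * m) * MM a + δ * (m * MM a)) = _
    ring
  rw [e4] at key
  change Real.exp (δ * m) * MM a ≤ MM b at key
  have e5 := Real.log_le_log (by positivity) key
  rw [Real.log_mul (Real.exp_pos _).ne' hMa.ne', Real.log_exp] at e5
  change Real.log (MM a) + m * δ ≤ Real.log (MM b)
  linarith

end Pool.Agent.Helper89.FR
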